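import Pool.Agent.SympBill.Step

set_option autoImplicit false

/-!
# The symplectic billiard of a heptagon: geometry
-/

namespace Pool.Agent.SympBill

/-- The vertices of the heptagon. -/
noncomputable def VS : Finset (ℝ × ℝ) :=
  {((0 : ℝ), (1 : ℝ)), (2, 0), (5, 0), (7, 2), (6, 4), (2, 6), (0, 6)}

/-- The heptagon. -/
def Hep : Set (ℝ × ℝ) := convexHull ℝ (VS : Set (ℝ × ℝ))

theorem v0 : ((0, 1) : ℝ × ℝ) ∈ Hep := subset_convexHull ℝ _ (by simp [VS])
theorem v1 : ((2, 0) : ℝ × ℝ) ∈ Hep := subset_convexHull ℝ _ (by simp [VS])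
theorem v2 : ((5, 0) : ℝ × ℝ) ∈ Hep := subset_convexHull ℝ _ (by simp [VS])
theorem v3 : ((7, 2) : ℝ × ℝ) ∈ Hep := subset_convexHull ℝ _ (by simp [VS])
theorem v4 : ((6, 4) : ℝ × ℝ) ∈ Hep := subset_convexHull ℝ _ (by simp [VS])
theorem v5 : ((2, 6) : ℝ × ℝ) ∈ Hep := subset_convexHull ℝ _ (by simp [VS])
theorem v6 : ((0, 6) : ℝ × ℝ) ∈ Hep := subset_convexHull ℝ _ (by simp [VS])

theorem hep_convex : Convex ℝ Hep := convex_convexHull ℝ _

theorem hep_closed : IsClosed Hep := by
  have : IsCompact (convexHull ℝ (VS : Set (ℝ × ℝ))) :=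
    Set.Finite.isCompact_convexHull (𝕜 := ℝ) (Finset.finite_toSet VS)
  exact this.isClosed

theorem hep_lin (a b c : ℝ) (h : ∀ v ∈ VS, 0 ≤ a * v.1 + b * v.2 + c) :
    ∀ p ∈ Hep, 0 ≤ a * p.1 + b * p.2 + c := by
  intro p hp
  have hc : Convex ℝ {p : ℝ × ℝ | 0 ≤ a * p.1 + b * p.2 + c} := by
    intro x hx y hy α β hα hβ hαβ
    simp only [Set.mem_ofPred_eq] at hx hy
    simp only [Set.mem_ofPred_eq, Prod.fst_add, Prod.smul_fst, smul_eq_mul, Prod.snd_add,
      Prod.smul_snd]
    have h1 := mul_nonneg hα hx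
    have h2 := mul_nonneg hβ hy
    have h3 : a * (α * x.1 + β * y.1) + b * (α * x.2 + β * y.2) + c =
        α * (a * x.1 + b * x.2 + c) + β * (a * y.1 + b * y.2 + c) := by
      linear_combination (-c) * hαβ
    rw [h3]
    linarith
  exact convexHull_min (fun v hv => h v hv) hc hp

theorem hh_nonneg {j : ℕ} (hj : j < 7) {p : ℝ × ℝ} (hp : p ∈ Hep) : 0 ≤ hh j p := by
  interval_cases j
  · have := hep_lin 1 2 (-2) (by simp [VS]; norm_num) p hp
    simp only [hh]; linarith
  · have := hep_lin 0 1 0 (by simp [VS]) p hp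
    simp only [hh]; linarith
  · have := hep_lin (-1) 1 5 (by simp [VS]; norm_num) p hp
    simp only [hh]; linarith
  · have := hep_lin (-2) (-1) 16 (by simp [VS]; norm_num) p hp
    simp only [hh]; linarith
  · have := hep_lin (-1) (-2) 14 (by simp [VS]; norm_num) p hp
    simp only [hh]; linarith
  · have := hep_lin 0 (-1) 6 (by simp [VS]; norm_num) p hp
    simp only [hh]; linarith
  · have := hep_lin 1 0 0 (by simp [VS]) p hp
    simp only [hh]; linarith

theorem hh_le {j : ℕ} (hj : j < 7) {p : ℝ × ℝ} (hp : p ∈ Hep) : hh j p ≤ mx j := by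
  interval_cases j
  · have := hep_lin (-1) (-2) 14 (by simp [VS]; norm_num) p hp
    simp only [hh, mx]; linarith
  · have := hep_lin 0 (-1) 6 (by simp [VS]; norm_num) p hp
    simp only [hh, mx]; linarith
  · have := hep_lin 1 (-1) 6 (by simp [VS]; norm_num) p hp
    simp only [hh, mx]; linarith
  · have := hep_lin 2 1 (-1) (by simp [VS]; norm_num) p hp
    simp only [hh, mx]; linarith
  · have := hep_lin 1 2 (-2) (by simp [VS]; norm_num) p hp
    simp only [hh, mx]; linarith
  · have := hep_lin 0 1 0 (by simp [VS]) p hp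
    simp only [hh, mx]; linarith
  · have := hep_lin (-1) 0 7 (by simp [VS]; norm_num) p hp
    simp only [hh, mx]; linarith

theorem tri {A B C : ℝ × ℝ} (hA : A ∈ Hep) (hB : B ∈ Hep) (hC : C ∈ Hep) {a b c : ℝ}
    (ha : 0 ≤ a) (hb : 0 ≤ b) (hc : 0 ≤ c) (h : a + b + c = 1) {p : ℝ × ℝ}
    (h1 : p.1 = a * A.1 + b * B.1 + c * C.1) (h2 : p.2 = a * A.2 + b * B.2 + c * C.2) :
    p ∈ Hep := by
  have hm : (∑ i : Fin 3, (![a, b, c] i) • (![A, B, C] i)) ∈ Hep := by
    refine hep_convex.sum_mem ?_ ?_ ?_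
    · intro i _
      fin_cases i <;> simp [ha, hb, hc]
    · simp [Fin.sum_univ_three, h]
    · intro i _
      fin_cases i <;> simp [hA, hB, hC]
  have he : (∑ i : Fin 3, (![a, b, c] i) • (![A, B, C] i)) = p := by
    refine Prod.ext ?_ ?_
    · simp [Fin.sum_univ_three, h1]
    · simp [Fin.sum_univ_three, h2]
  rwa [he] at hm

theorem mem_hep {p : ℝ × ℝ} (h : ∀ j < 7, 0 ≤ hh j p) : p ∈ Hep := by
  have h0 := h 0 (by norm_num)
  have h1 := h 1 (by norm_num)
  have h2 := h 2 (by norm_num)
  have h3 := h 3 (by norm_num)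
  have h4 := h 4 (by norm_num)
  have h5 := h 5 (by norm_num)
  have h6 := h 6 (by norm_num)
  simp only [hh] at h0 h1 h2 h3 h4 h5 h6
  by_cases c1 : 3 * p.1 + p.2 ≤ 6
  · exact tri v6 v0 v1 (a := (p.1 + 2 * p.2 - 2) / 10) (b := (6 - 3 * p.1 - p.2) / 5)
      (c := p.1 / 2) (by linarith) (by linarith) (by linarith) (by ring) (by simp)
      (by simp; ring)
  push Not at c1
  by_cases c2 : 6 * p.1 + 5 * p.2 ≤ 30
  · exact tri v6 v1 v2 (a := p.2 / 6) (b := (30 - 6 * p.1 - 5 * p.2) / 18)
      (c := (3 * p.1 + p.2 - 6) / 9) (by linarith) (by linarith) (by linarith) (by ring)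
      (by simp; ring) (by simp)
  push Not at c2
  by_cases c3 : 4 * p.1 + 7 * p.2 ≤ 42
  · exact tri v6 v2 v3 (a := (p.2 - p.1 + 5) / 11) (b := (42 - 4 * p.1 - 7 * p.2) / 22)
      (c := (6 * p.1 + 5 * p.2 - 30) / 22) (by linarith) (by linarith) (by linarith) (by ring)
      (by simp; ring) (by simp; ring)
  push Not at c3
  by_cases c4 : p.1 + 3 * p.2 ≤ 18
  · exact tri v6 v3 v4 (a := (16 - 2 * p.1 - p.2) / 10) (b := (18 - p.1 - 3 * p.2) / 5)
      (c := (4 * p.1 + 7 * p.2 - 42) / 10) (by linarith) (by linarith) (by linarith) (by ring)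
      (by simp; ring) (by simp; ring)
  push Not at c4
  exact tri v6 v4 v5 (a := (14 - p.1 - 2 * p.2) / 2) (b := (6 - p.2) / 2)
      (c := (p.1 + 3 * p.2 - 18) / 2) (by linarith) (by linarith) (by linarith) (by ring)
      (by simp; ring) (by simp; ring)

theorem hh_cont {j : ℕ} (hj : j < 7) : Continuous (hh j) := by
  interval_cases j
  · exact (by fun_prop : Continuous fun p : ℝ × ℝ => p.1 + 2 * p.2 - 2)
  · exact (by fun_prop : Continuous fun p : ℝ × ℝ => p.2)
  · exact (by fun_prop : Continuous fun p : ℝ × ℝ => p.2 - p.1 + 5)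
  · exact (by fun_prop : Continuous fun p : ℝ × ℝ => 16 - 2 * p.1 - p.2)
  · exact (by fun_prop : Continuous fun p : ℝ × ℝ => 14 - p.1 - 2 * p.2)
  · exact (by fun_prop : Continuous fun p : ℝ × ℝ => 6 - p.2)
  · exact (by fun_prop : Continuous fun p : ℝ × ℝ => p.1)

theorem open_pos : IsOpen {p : ℝ × ℝ | ∀ j < 7, 0 < hh j p} := by
  have : {p : ℝ × ℝ | ∀ j < 7, 0 < hh j p} =
      {p | 0 < hh 0 p} ∩ {p | 0 < hh 1 p} ∩ {p | 0 < hh 2 p} ∩ {p | 0 < hh 3 p} ∩
      {p | 0 < hh 4 p} ∩ {p | 0 < hh 5 p} ∩ {p | 0 < hh 6 p} := by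
    ext p
    simp only [Set.mem_ofPred_eq, Set.mem_inter_iff]
    constructor
    · intro h
      exact ⟨⟨⟨⟨⟨⟨h 0 (by norm_num), h 1 (by norm_num)⟩, h 2 (by norm_num)⟩, h 3 (by norm_num)⟩,
        h 4 (by norm_num)⟩, h 5 (by norm_num)⟩, h 6 (by norm_num)⟩
    · rintro ⟨⟨⟨⟨⟨⟨h0, h1⟩, h2⟩, h3⟩, h4⟩, h5⟩, h6⟩ j hj
      interval_cases j <;> assumption
  rw [this]
  exact (((((((isOpen_lt continuous_const (hh_cont (by norm_num))).inter
    (isOpen_lt continuous_const (hh_cont (by norm_num)))).inter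
    (isOpen_lt continuous_const (hh_cont (by norm_num)))).inter
    (isOpen_lt continuous_const (hh_cont (by norm_num)))).inter
    (isOpen_lt continuous_const (hh_cont (by norm_num)))).inter
    (isOpen_lt continuous_const (hh_cont (by norm_num)))).inter
    (isOpen_lt continuous_const (hh_cont (by norm_num))))

theorem pos_subset_interior : {p : ℝ × ℝ | ∀ j < 7, 0 < hh j p} ⊆ interior Hep :=
  interior_maximal (fun _ hp => mem_hep fun j hj => (hp j hj).le) open_pos

theorem hep_interior : (interior Hep).Nonempty := by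
  refine ⟨(3, 3), pos_subset_interior ?_⟩
  intro j hj
  interval_cases j <;> (simp only [hh]; norm_num)

theorem hh_comb {j : ℕ} (hj : j < 7) {p q : ℝ × ℝ} {a b : ℝ} (h : a + b = 1) :
    hh j (a • p + b • q) = a * hh j p + b * hh j q := by
  interval_cases j <;>
    simp only [hh, Prod.fst_add, Prod.smul_fst, smul_eq_mul, Prod.snd_add, Prod.smul_snd]
  · linear_combination 2 * h
  · linear_combination (-5) * h
  · linear_combination (-16) * h
  · linear_combination (-14) * h
  · linear_combination (-6) * h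

/-- A point lying on two sides is an extreme point. -/
theorem extreme_of {i j : ℕ} (hi : i < 7) (hj : j < 7) {v : ℝ × ℝ} (hv : v ∈ Hep)
    (h1 : hh i v = 0) (h2 : hh j v = 0) (hu : ∀ p : ℝ × ℝ, hh i p = 0 → hh j p = 0 → p = v) :
    v ∈ Set.extremePoints ℝ Hep := by
  rw [mem_extremePoints]
  refine ⟨hv, fun p hp q hq hpq => ?_⟩
  obtain ⟨a, b, ha, hb, hab, rfl⟩ := hpq
  rw [hh_comb hi hab] at h1
  rw [hh_comb hj hab] at h2
  have p1 := hh_nonneg hi hp
  have p2 := hh_nonneg hj hp
  have q1 := hh_nonneg hi hq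
  have q2 := hh_nonneg hj hq
  have e1 : hh i p = 0 := by
    have := mul_nonneg ha.le p1
    have := mul_nonneg hb.le q1
    have h : a * hh i p = 0 := by linarith
    exact (mul_eq_zero.1 h).resolve_left ha.ne'
  have e2 : hh j p = 0 := by
    have := mul_nonneg ha.le p2
    have := mul_nonneg hb.le q2
    have h : a * hh j p = 0 := by linarith
    exact (mul_eq_zero.1 h).resolve_left ha.ne'
  have e3 : hh i q = 0 := by
    have := mul_nonneg ha.le p1
    have := mul_nonneg hb.le q1
    have h : b * hh i q = 0 := by linarith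
    exact (mul_eq_zero.1 h).resolve_left hb.ne'
  have e4 : hh j q = 0 := by
    have := mul_nonneg ha.le p2
    have := mul_nonneg hb.le q2
    have h : b * hh j q = 0 := by linarith
    exact (mul_eq_zero.1 h).resolve_left hb.ne'
  exact ⟨hu p e1 e2, hu q e3 e4⟩

theorem ext0 : ((0, 1) : ℝ × ℝ) ∈ Set.extremePoints ℝ Hep :=
  extreme_of (i := 6) (j := 0) (by norm_num) (by norm_num) v0 (by simp [hh]) (by simp [hh])
    (fun p h1 h2 => by simp only [hh] at h1 h2; exact Prod.ext h1 (by simp; linarith))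

theorem ext1 : ((2, 0) : ℝ × ℝ) ∈ Set.extremePoints ℝ Hep :=
  extreme_of (i := 0) (j := 1) (by norm_num) (by norm_num) v1 (by simp [hh]) (by simp [hh])
    (fun p h1 h2 => by
      simp only [hh] at h1 h2; exact Prod.ext (by simp; linarith) (by simp; linarith))

theorem ext2 : ((5, 0) : ℝ × ℝ) ∈ Set.extremePoints ℝ Hep :=
  extreme_of (i := 1) (j := 2) (by norm_num) (by norm_num) v2 (by simp [hh]) (by simp [hh])
    (fun p h1 h2 => by
      simp only [hh] at h1 h2; exact Prod.ext (by simp; linarith) (by simp; linarith))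

theorem ext3 : ((7, 2) : ℝ × ℝ) ∈ Set.extremePoints ℝ Hep :=
  extreme_of (i := 2) (j := 3) (by norm_num) (by norm_num) v3 (by norm_num [hh])
    (by norm_num [hh])
    (fun p h1 h2 => by
      simp only [hh] at h1 h2; exact Prod.ext (by simp; linarith) (by simp; linarith))

theorem ext4 : ((6, 4) : ℝ × ℝ) ∈ Set.extremePoints ℝ Hep :=
  extreme_of (i := 3) (j := 4) (by norm_num) (by norm_num) v4 (by norm_num [hh])
    (by norm_num [hh])
    (fun p h1 h2 => by
      simp only [hh] at h1 h2; exact Prod.ext (by simp; linarith) (by simp; linarith))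

theorem ext5 : ((2, 6) : ℝ × ℝ) ∈ Set.extremePoints ℝ Hep :=
  extreme_of (i := 4) (j := 5) (by norm_num) (by norm_num) v5 (by norm_num [hh])
    (by norm_num [hh])
    (fun p h1 h2 => by
      simp only [hh] at h1 h2; exact Prod.ext (by simp; linarith) (by simp; linarith))

theorem ext6 : ((0, 6) : ℝ × ℝ) ∈ Set.extremePoints ℝ Hep :=
  extreme_of (i := 5) (j := 6) (by norm_num) (by norm_num) v6 (by norm_num [hh])
    (by norm_num [hh])
    (fun p h1 h2 => by
      simp only [hh] at h1 h2; exact Prod.ext (by simp; linarith) (by simp; linarith))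

/-- A boundary point that is not extreme lies in an open side. -/
theorem on_side {x : ℝ × ℝ} (hx : x ∈ frontier Hep) (hx' : x ∉ Set.extremePoints ℝ Hep) :
    ∃ s < 7, ∃ t : ℝ, 0 < t ∧ t < (len s : ℝ) ∧ x = pt s t := by
  have hxP : x ∈ Hep := hep_closed.frontier_subset hx
  have hnn : ∀ j < 7, 0 ≤ hh j x := fun j hj => hh_nonneg hj hxP
  have hex : ∃ j < 7, hh j x = 0 := by
    by_contra hcon
    push Not at hcon
    have : x ∈ interior Hep :=
      pos_subset_interior fun j hj => lt_of_le_of_ne (hnn j hj) (Ne.symm (hcon j hj))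
    exact hx.2 this
  obtain ⟨j, hj, h0⟩ := hex
  have n0 : x ≠ (0, 1) := fun h => hx' (h ▸ ext0)
  have n1 : x ≠ (2, 0) := fun h => hx' (h ▸ ext1)
  have n2 : x ≠ (5, 0) := fun h => hx' (h ▸ ext2)
  have n3 : x ≠ (7, 2) := fun h => hx' (h ▸ ext3)
  have n4 : x ≠ (6, 4) := fun h => hx' (h ▸ ext4)
  have n5 : x ≠ (2, 6) := fun h => hx' (h ▸ ext5)
  have n6 : x ≠ (0, 6) := fun h => hx' (h ▸ ext6)
  have g0 := hnn 0 (by norm_num)
  have g1 := hnn 1 (by norm_num)
  have g2 := hnn 2 (by norm_num)
  have g3 := hnn 3 (by norm_num)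
  have g4 := hnn 4 (by norm_num)
  have g5 := hnn 5 (by norm_num)
  have g6 := hnn 6 (by norm_num)
  obtain ⟨x1, x2⟩ := x
  simp only [hh] at g0 g1 g2 g3 g4 g5 g6
  simp only [ne_eq, Prod.mk.injEq, not_and] at n0 n1 n2 n3 n4 n5 n6
  interval_cases j <;> simp only [hh] at h0
  · refine ⟨0, by norm_num, 1 - x2, ?_, ?_, ?_⟩
    · refine lt_of_le_of_ne (by linarith) fun h => n0 (by linarith) (by linarith)
    · simp only [len, Rat.cast_one]
      refine lt_of_le_of_ne (by linarith) fun h => n1 (by linarith) (by linarith)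
    · exact Prod.ext (by simp only [pt]; linarith) (by simp only [pt]; linarith)
  · refine ⟨1, by norm_num, x1 - 2, ?_, ?_, ?_⟩
    · refine lt_of_le_of_ne (by linarith) fun h => n1 (by linarith) (by linarith)
    · simp only [len, Rat.cast_ofNat]
      refine lt_of_le_of_ne (by linarith) fun h => n2 (by linarith) (by linarith)
    · exact Prod.ext (by simp only [pt]; linarith) (by simp only [pt]; linarith)
  · refine ⟨2, by norm_num, x2, ?_, ?_, ?_⟩
    · refine lt_of_le_of_ne (by linarith) fun h => n2 (by linarith) (by linarith)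
    · simp only [len, Rat.cast_ofNat]
      refine lt_of_le_of_ne (by linarith) fun h => n3 (by linarith) (by linarith)
    · exact Prod.ext (by simp only [pt]; linarith) (by simp only [pt])
  · refine ⟨3, by norm_num, 7 - x1, ?_, ?_, ?_⟩
    · refine lt_of_le_of_ne (by linarith) fun h => n3 (by linarith) (by linarith)
    · simp only [len, Rat.cast_one]
      refine lt_of_le_of_ne (by linarith) fun h => n4 (by linarith) (by linarith)
    · exact Prod.ext (by simp only [pt]; linarith) (by simp only [pt]; linarith)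
  · refine ⟨4, by norm_num, x2 - 4, ?_, ?_, ?_⟩
    · refine lt_of_le_of_ne (by linarith) fun h => n4 (by linarith) (by linarith)
    · simp only [len, Rat.cast_ofNat]
      refine lt_of_le_of_ne (by linarith) fun h => n5 (by linarith) (by linarith)
    · exact Prod.ext (by simp only [pt]; linarith) (by simp only [pt]; linarith)
  · refine ⟨5, by norm_num, 2 - x1, ?_, ?_, ?_⟩
    · refine lt_of_le_of_ne (by linarith) fun h => n5 (by linarith) (by linarith)
    · simp only [len, Rat.cast_ofNat]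
      refine lt_of_le_of_ne (by linarith) fun h => n6 (by linarith) (by linarith)
    · exact Prod.ext (by simp only [pt]; linarith) (by simp only [pt]; linarith)
  · refine ⟨6, by norm_num, 6 - x2, ?_, ?_, ?_⟩
    · refine lt_of_le_of_ne (by linarith) fun h => n6 (by linarith) (by linarith)
    · simp only [len, Rat.cast_ofNat]
      refine lt_of_le_of_ne (by linarith) fun h => n0 (by linarith) (by linarith)
    · exact Prod.ext (by simp only [pt]; linarith) (by simp only [pt]; linarith)

/-- A functional that is maximal at a point of an open side is a negative multiple of the height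
over that side. -/
theorem functional {s : ℕ} (hs : s < 7) {t : ℝ} (h0 : 0 < t) (h1 : t < (len s : ℝ)) {a b : ℝ}
    (hab : a ≠ 0 ∨ b ≠ 0)
    (hm : ∀ p ∈ Hep, a * p.1 + b * p.2 ≤ a * (pt s t).1 + b * (pt s t).2) :
    ∃ c : ℝ, 0 < c ∧ ∀ p q : ℝ × ℝ,
      a * (p.1 - q.1) + b * (p.2 - q.2) = - c * (hh s p - hh s q) := by
  have m0 := hm _ v0
  have m1 := hm _ v1
  have m2 := hm _ v2
  have m3 := hm _ v3
  have m4 := hm _ v4
  have m5 := hm _ v5
  have m6 := hm _ v6
  have key : ∀ u l : ℝ, 0 < l → l < u → ∀ z : ℝ, 0 ≤ l * z → (u - l) * z ≤ 0 → z = 0 := by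
    intro u l hl hlu z z1 z2
    have h1 : 0 ≤ z := by
      by_contra hz
      push Not at hz
      have := mul_neg_of_pos_of_neg hl hz
      linarith
    have h2 : z ≤ 0 := by
      by_contra hz
      push Not at hz
      have := mul_pos (sub_pos.2 hlu) hz
      linarith
    linarith
  interval_cases s <;> simp only [pt] at m0 m1 m2 m3 m4 m5 m6 <;>
    simp only [len, Rat.cast_ofNat, Rat.cast_one] at h1
  · have hz := key 1 t h0 h1 (2 * a - b) (by linarith) (by linarith)
    have hne : a ≠ 0 := by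
      rintro rfl
      exact hab.elim (fun h => h rfl) (fun h => h (by linarith))
    refine ⟨-a, ?_, fun p q => ?_⟩
    · refine lt_of_le_of_ne ?_ (fun h => hne (by linarith))
      have hb : b = 2 * a := by linarith
      subst hb
      linarith
    · have hb : b = 2 * a := by linarith
      subst hb
      simp only [hh]; ring
  · have hz := key 3 t h0 h1 a (by linarith) (by linarith)
    subst hz
    have hne : b ≠ 0 := by
      rintro rfl
      exact hab.elim (fun h => h rfl) (fun h => h rfl)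
    refine ⟨-b, ?_, fun p q => ?_⟩
    · refine lt_of_le_of_ne ?_ (fun h => hne (by linarith))
      linarith
    · simp only [hh]; ring
  · have hz := key 2 t h0 h1 (a + b) (by linarith) (by linarith)
    have hb : b = -a := by linarith
    subst hb
    have hne : a ≠ 0 := by
      rintro rfl
      exact hab.elim (fun h => h rfl) (fun h => h (by linarith))
    refine ⟨a, ?_, fun p q => ?_⟩
    · refine lt_of_le_of_ne ?_ (fun h => hne (by linarith))
      linarith
    · simp only [hh]; ring
  · have hz := key 1 t h0 h1 (-a + 2 * b) (by linarith) (by linarith)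
    have hb : a = 2 * b := by linarith
    subst hb
    have hne : b ≠ 0 := by
      rintro rfl
      exact hab.elim (fun h => h (by linarith)) (fun h => h (by linarith))
    refine ⟨b, ?_, fun p q => ?_⟩
    · refine lt_of_le_of_ne ?_ (fun h => hne (by linarith))
      linarith
    · simp only [hh]; ring
  · have hz := key 2 t h0 h1 (-2 * a + b) (by linarith) (by linarith)
    have hb : b = 2 * a := by linarith
    subst hb
    have hne : a ≠ 0 := by
      rintro rfl
      exact hab.elim (fun h => h rfl) (fun h => h (by linarith))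
    refine ⟨a, ?_, fun p q => ?_⟩
    · refine lt_of_le_of_ne ?_ (fun h => hne (by linarith))
      linarith
    · simp only [hh]; ring
  · have hz := key 2 t h0 h1 (-a) (by linarith) (by linarith)
    have ha : a = 0 := by linarith
    subst ha
    have hne : b ≠ 0 := by
      rintro rfl
      exact hab.elim (fun h => h rfl) (fun h => h rfl)
    refine ⟨b, ?_, fun p q => ?_⟩
    · refine lt_of_le_of_ne ?_ (fun h => hne (by linarith))
      linarith
    · simp only [hh]; ring
  · have hz := key 5 t h0 h1 (-b) (by linarith) (by linarith)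
    have hb : b = 0 := by linarith
    subst hb
    have hne : a ≠ 0 := by
      rintro rfl
      exact hab.elim (fun h => h rfl) (fun h => h rfl)
    refine ⟨-a, ?_, fun p q => ?_⟩
    · refine lt_of_le_of_ne ?_ (fun h => hne (by linarith))
      linarith
    · simp only [hh]; ring

theorem hh_pt_self {s : ℕ} (hs : s < 7) (t : ℝ) : hh s (pt s t) = 0 := by
  interval_cases s <;> simp only [hh, pt] <;> ring

/-- The heptagon has no periodic symplectic billiard orbit. -/
theorem main {n : ℕ} (hn : 0 < n) {x : ℕ → ℝ × ℝ} (hper : ∀ i, x (i + n) = x i)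
    (h : ∀ i : ℕ, x i ∈ frontier Hep ∧ x i ∉ Set.extremePoints ℝ Hep ∧ x (i + 2) ≠ x i ∧
        ∃ a b : ℝ, (a ≠ 0 ∨ b ≠ 0) ∧
          a * ((x (i + 2)).1 - (x i).1) + b * ((x (i + 2)).2 - (x i).2) = 0 ∧
          (∀ p ∈ Hep, a * p.1 + b * p.2 ≤ a * (x (i + 1)).1 + b * (x (i + 1)).2) ∧
          a * (x i).1 + b * (x i).2 < a * (x (i + 1)).1 + b * (x (i + 1)).2 ∧
          ∃ p ∈ Hep, a * p.1 + b * p.2 < a * (x i).1 + b * (x i).2) : False := by
  -- choose sides and positions depending only on the point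
  have hch : ∀ y : ℝ × ℝ, ∃ s : ℕ, ∃ t : ℝ, (y ∈ frontier Hep ∧ y ∉ Set.extremePoints ℝ Hep) →
      s < 7 ∧ 0 < t ∧ t < (len s : ℝ) ∧ y = pt s t := by
    intro y
    by_cases hy : y ∈ frontier Hep ∧ y ∉ Set.extremePoints ℝ Hep
    · obtain ⟨s, hs, t, h1, h2, h3⟩ := on_side hy.1 hy.2
      exact ⟨s, t, fun _ => ⟨hs, h1, h2, h3⟩⟩
    · exact ⟨0, 0, fun h => absurd h hy⟩
  choose S T hST using hch
  have hi : ∀ i, S (x i) < 7 ∧ 0 < T (x i) ∧ T (x i) < (len (S (x i)) : ℝ) ∧
      x i = pt (S (x i)) (T (x i)) := fun i => hST (x i) ⟨(h i).1, (h i).2.1⟩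
  refine no_periodic' (s := fun i => S (x i)) (t := fun i => T (x i))
    (fun i => ⟨(hi i).2.1, (hi i).2.2.1⟩) (fun i => ?_) n hn (fun i => ?_) (fun i => ?_)
  · show Pst (S (x (i + 1))) (S (x i)) (S (x (i + 2))) (T (x i)) (T (x (i + 2))) ∨
      Pst (S (x (i + 1))) (S (x (i + 2))) (S (x i)) (T (x (i + 2))) (T (x i))
    obtain ⟨-, -, hne, a, b, hab, e0, hmax, hlt, p, hp, hplt⟩ := h i
    obtain ⟨j1, j2, j3, j4⟩ := hi (i + 1)
    obtain ⟨s1, s2, s3, s4⟩ := hi i
    obtain ⟨k1, k2, k3, k4⟩ := hi (i + 2)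
    obtain ⟨c, hc, hf⟩ := functional j1 j2 j3 hab (by rw [← j4]; exact hmax)
    have z0 : hh (S (x (i + 1))) (x (i + 1)) = 0 := by
      have := hh_pt_self j1 (T (x (i + 1)))
      rwa [← j4] at this
    have f1 := hf (x (i + 2)) (x i)
    have f2 := hf (x i) (x (i + 1))
    have f3 := hf p (x i)
    rw [z0] at f2
    have e1 : hh (S (x (i + 1))) (x i) = hh (S (x (i + 1))) (x (i + 2)) := by
      rw [e0] at f1
      have := mul_eq_zero.1 f1.symm
      rcases this with h' | h'
      · exact absurd h' (by linarith)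
      · linarith
    have e2 : 0 < hh (S (x (i + 1))) (x i) := by
      by_contra hcon
      push Not at hcon
      have := mul_nonneg hc.le (neg_nonneg.2 hcon)
      linarith
    have e3 : hh (S (x (i + 1))) (x i) < mx (S (x (i + 1))) := by
      by_contra hcon
      push Not at hcon
      have h1 := hh_le j1 hp
      have := mul_nonneg hc.le (sub_nonneg.2 (h1.trans hcon))
      linarith
    refine step_all j1 s1 k1 s2 s3 k2 k3 ?_ ?_ ?_ ?_
    · rw [← s4, ← k4]; exact e1
    · rw [← s4]; exact e2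
    · rw [← s4]; exact e3
    · by_contra hcon
      push Not at hcon
      exact hne (by rw [k4, s4, hcon.1, hcon.2])
  · show S (x (i + n)) = S (x i)
    rw [hper]
  · show T (x (i + n)) = T (x i)
    rw [hper]

end Pool.Agent.SympBill
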