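import Mathlib

set_option autoImplicit false

/-!
# The symplectic billiard of a heptagon: symbolic part

The heptagon has vertices (0,1), (2,0), (5,0), (7,2), (6,4), (2,6), (0,6).  Side number `i` starts at
the `i`-th vertex; a point of side `i` is described by its lattice distance from that vertex.
-/

namespace Pool.Agent.SympBill

/-- A piece of a chord map: a point at distance in `(lo, hi)` is sent to the point of side `k` at
distance `al * t + be`. -/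
structure Pc where
  lo : ℚ
  hi : ℚ
  k : ℕ
  al : ℚ
  be : ℚ

/-- The pieces of the chord map parallel to side `j`, on side `i`. -/
def pcs (j i : ℕ) : List Pc :=
  match j, i with
  | 0, 5 => [⟨0, 2, 3, -1/3, 1⟩]
  | 0, 6 => [⟨7/2, 5, 1, -2, 10⟩, ⟨1/2, 7/2, 2, -2/3, 7/3⟩, ⟨0, 1/2, 3, -2/3, 1/3⟩]
  | 1, 0 => [⟨0, 1, 2, -1, 1⟩]
  | 1, 6 => [⟨4, 5, 2, -1, 6⟩, ⟨2, 4, 3, -1/2, 2⟩, ⟨0, 2, 4, -1, 2⟩]
  | 2, 0 => [⟨0, 1, 4, -1, 1⟩]
  | 2, 1 => [⟨0, 3, 3, -1/3, 1⟩]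
  | 2, 6 => [⟨2, 5, 4, -1/3, 8/3⟩, ⟨0, 2, 5, -1, 2⟩]
  | 3, 0 => [⟨0, 1, 6, -3, 5⟩]
  | 3, 1 => [⟨1, 3, 5, -1, 3⟩, ⟨0, 1, 6, -2, 2⟩]
  | 3, 2 => [⟨0, 2, 4, -1, 2⟩]
  | 4, 1 => [⟨0, 3, 6, -1/2, 5⟩]
  | 4, 2 => [⟨0, 2, 6, -3/2, 7/2⟩]
  | 4, 3 => [⟨1/3, 1, 5, -3, 3⟩, ⟨0, 1/3, 6, -3/2, 1/2⟩]
  | 5, 2 => [⟨1, 2, 6, -1, 6⟩, ⟨0, 1, 0, -1, 1⟩]
  | 5, 3 => [⟨0, 1, 6, -2, 4⟩]
  | 5, 4 => [⟨0, 2, 6, -1, 2⟩]
  | 6, 3 => [⟨0, 1, 2, -1, 2⟩]
  | 6, 4 => [⟨1/2, 2, 1, -2, 4⟩, ⟨0, 1/2, 2, -2, 1⟩]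
  | 6, 5 => [⟨0, 2, 0, -1/2, 1⟩]
  | _, _ => []

/-- The pairs (side of a point, side of the next point) that occur. -/
def pairs : List (ℕ × ℕ) :=
  [(5, 0), (2, 5), (3, 5), (1, 3), (0, 2), (4, 5), (0, 1), (3, 4), (2, 3), (1, 2), (1, 4), (6, 1),
    (6, 2), (3, 6), (0, 3), (4, 6), (2, 4), (6, 0), (5, 6)]

theorem mem_pairs (j i : ℕ) (p : Pc) (h : p ∈ pcs j i) : (i, j) ∈ pairs := by
  unfold pcs at h
  split at h <;> first | (simp [pairs]; done) | (simp at h)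

/-- Lattice lengths of the sides. -/
def len : ℕ → ℚ
  | 0 => 1
  | 1 => 3
  | 2 => 2
  | 3 => 1
  | 4 => 2
  | 5 => 2
  | 6 => 5
  | _ => 0

/-- Orbits (side, position) of the symplectic billiard map of the heptagon. -/
structure Orb (s : ℕ → ℕ) (t : ℕ → ℝ) : Prop where
  bd : ∀ i, 0 < t i ∧ t i < (len (s i) : ℝ)
  step : ∀ i, ∃ p ∈ pcs (s (i + 1)) (s i), (p.lo : ℝ) < t i ∧ t i < (p.hi : ℝ) ∧
    s (i + 2) = p.k ∧ t (i + 2) = (p.al : ℝ) * t i + (p.be : ℝ)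

/-- A rectangle of states reached from a base point `(u, v)`: the current point is on side `i` and
the next on side `j`; `sw` tells whether the roles of `u` and `v` are exchanged. -/
structure Cell where
  i : ℕ
  j : ℕ
  sw : Bool
  a : ℚ
  b : ℚ
  c : ℚ
  d : ℚ
  x0 : ℚ
  x1 : ℚ
  y0 : ℚ
  y1 : ℚ

/-- The next cell along a piece. -/
def nxt (C : Cell) (p : Pc) : Cell :=
  ⟨C.j, p.k, !C.sw, C.c, C.d, p.al * C.a, p.al * C.b + p.be, C.y0, C.y1,
    p.al * min C.x1 p.hi + p.be, p.al * max C.x0 p.lo + p.be⟩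

/-- Follow all pieces until `leaf` holds. -/
def run (leaf : Cell → Bool) : ℕ → Cell → Bool
  | 0, _ => false
  | n + 1, C => (pcs C.j C.i).all fun p =>
      !(decide (max C.x0 p.lo < min C.x1 p.hi)) ||
        (decide (p.al < 0) && (leaf (nxt C p) || run leaf n (nxt C p)))

/-- The state at time `m` lies in the cell, relative to the base `(u, v)`. -/
def Cell.In (C : Cell) (s : ℕ → ℕ) (t : ℕ → ℝ) (m : ℕ) (u v : ℝ) : Prop :=
  s m = C.i ∧ s (m + 1) = C.j ∧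
  t m = (C.a : ℝ) * (if C.sw then v else u) + (C.b : ℝ) ∧
  t (m + 1) = (C.c : ℝ) * (if C.sw then u else v) + (C.d : ℝ) ∧
  (C.x0 : ℝ) < t m ∧ t m < (C.x1 : ℝ) ∧ (C.y0 : ℝ) < t (m + 1) ∧ t (m + 1) < (C.y1 : ℝ)

theorem step_sound {s : ℕ → ℕ} {t : ℕ → ℝ} (h : Orb s t) (C : Cell) (m : ℕ) (u v : ℝ)
    (hC : C.In s t m u v) : ∃ p ∈ pcs C.j C.i, max C.x0 p.lo < min C.x1 p.hi ∧
      (p.al < 0 → (nxt C p).In s t (m + 1) u v) := by
  obtain ⟨h1, h2, h3, h4, h5, h6, h7, h8⟩ := hC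
  obtain ⟨p, hp, hlo, hhi, hk, ht⟩ := h.step m
  rw [h1, h2] at hp
  have hmax : ((max C.x0 p.lo : ℚ) : ℝ) < t m := by
    rw [Rat.cast_max]; exact max_lt h5 hlo
  have hmin : t m < ((min C.x1 p.hi : ℚ) : ℝ) := by
    rw [Rat.cast_min]; exact lt_min h6 hhi
  refine ⟨p, hp, ?_, ?_⟩
  · exact_mod_cast hmax.trans hmin
  · intro hal
    have hal' : (p.al : ℝ) < 0 := by exact_mod_cast hal
    refine ⟨?_, ?_, ?_, ?_, ?_, ?_, ?_, ?_⟩
    · simpa [nxt] using h2
    · simpa [nxt] using hk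
    · rw [h4]
      simp only [nxt]
      by_cases hs : C.sw = true <;> simp [hs]
    · rw [show m + 1 + 1 = m + 2 from rfl, ht, h3]
      simp only [nxt]
      by_cases hs : C.sw = true <;> simp [hs] <;> ring
    · simpa [nxt] using h7
    · simpa [nxt] using h8
    · rw [show m + 1 + 1 = m + 2 from rfl, ht]
      simp only [nxt]
      rw [Rat.cast_add, Rat.cast_mul]
      nlinarith [mul_lt_mul_of_neg_left hmin hal']
    · rw [show m + 1 + 1 = m + 2 from rfl, ht]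
      simp only [nxt]
      rw [Rat.cast_add, Rat.cast_mul]
      nlinarith [mul_lt_mul_of_neg_left hmax hal']

theorem run_sound {s : ℕ → ℕ} {t : ℕ → ℝ} (h : Orb s t) (leaf : Cell → Bool) (u v : ℝ) :
    ∀ (n : ℕ) (C : Cell) (m : ℕ), run leaf n C = true → C.In s t m u v →
      ∃ m', m < m' ∧ ∃ C' : Cell, leaf C' = true ∧ C'.In s t m' u v := by
  intro n
  induction n with
  | zero => intro C m hr; simp [run] at hr
  | succ n ih =>
    intro C m hr hC
    obtain ⟨p, hp, hlt, hin⟩ := step_sound h C m u v hC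
    rw [run, List.all_eq_true] at hr
    have h2 := hr p hp
    simp only [hlt, decide_true, Bool.not_true, Bool.false_or, Bool.and_eq_true, decide_eq_true_eq,
      Bool.or_eq_true] at h2
    obtain ⟨hal, h3⟩ := h2
    rcases h3 with h3 | h3
    · exact ⟨m + 1, Nat.lt_succ_self m, _, h3, hin hal⟩
    · obtain ⟨m', hm', C', hl, hC'⟩ := ih (nxt C p) (m + 1) h3 (hin hal)
      exact ⟨m', by omega, C', hl, hC'⟩

/-- The section: first point on the second half of side 5, second point on side 0. -/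
def Dst (s : ℕ → ℕ) (t : ℕ → ℝ) (m : ℕ) : Prop :=
  s m = 5 ∧ s (m + 1) = 0 ∧ 1 < t m ∧ t m < 2 ∧ 0 < t (m + 1) ∧ t (m + 1) < 1

/-- The self-similar map of the unit square, as a relation. -/
def ERel (p q : ℝ × ℝ) : Prop :=
  (0 < p.1 ∧ p.1 < 1 ∧ 0 < p.2 ∧ p.2 < 1) ∧
  ((p.2 < 1/2 ∧ q.1 = (p.1 + 1)/2 ∧ q.2 = 2 * p.2) ∨
   (1/2 < p.2 ∧ p.1 < 1/2 ∧ q.1 = (1 - p.2)/2 ∧ q.2 = 2 * p.1) ∨
   (1/2 < p.2 ∧ 1/2 < p.1 ∧ q.1 = p.2/2 ∧ q.2 = 2 - 2 * p.1))

/-- Leaf test for a return to the section with one of the three affine forms. -/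
def leafR (C : Cell) : Bool :=
  decide (C.i = 5) && decide (C.j = 0) && decide (1 ≤ C.x0) && decide (C.x1 ≤ 2) &&
  decide (0 ≤ C.y0) && decide (C.y1 ≤ 1) &&
  ((decide (C.sw = false) && decide (C.a = 1/2) && decide (C.b = 1) && decide (C.c = 2) &&
      decide (C.d = 0)) ||
   (decide (C.sw = true) && decide (C.a = -1/2) && decide (C.b = 3/2) && decide (C.c = 2) &&
      decide (C.d = -2) && decide (C.x1 ≤ 5/4)) ||
   (decide (C.sw = true) && decide (C.a = 1/2) && decide (C.b = 1) && decide (C.c = -2) &&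
      decide (C.d = 4) && decide (5/4 ≤ C.x0)))

def leafD (C : Cell) : Bool :=
  decide (C.i = 5) && decide (C.j = 0) && decide (1 ≤ C.x0) && decide (C.x1 ≤ 2) &&
  decide (0 ≤ C.y0) && decide (C.y1 ≤ 1)

theorem runR : run leafR 320 ⟨5, 0, false, 1, 0, 1, 0, 1, 2, 0, 1⟩ = true := by decide +kernel

theorem ret {s : ℕ → ℕ} {t : ℕ → ℝ} (h : Orb s t) (m : ℕ) (hm : Dst s t m) :
    ∃ m', Dst s t m' ∧ ERel (t m - 1, t (m + 1)) (t m' - 1, t (m' + 1)) := by
  obtain ⟨h1, h2, h3, h4, h5, h6⟩ := hm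
  obtain ⟨m', -, C, hl, hC⟩ := run_sound h leafR (t m) (t (m + 1)) 320 _ m runR
    ⟨h1, h2, by simp, by simp, by simpa using h3, by simpa using h4, by simpa using h5,
      by simpa using h6⟩
  refine ⟨m', ?_⟩
  obtain ⟨g1, g2, g3, g4, g5, g6, g7, g8⟩ := hC
  simp only [leafR, Bool.and_eq_true, Bool.or_eq_true, decide_eq_true_eq] at hl
  obtain ⟨⟨⟨⟨⟨⟨e1, e2⟩, e3⟩, e4⟩, e5⟩, e6⟩, e7⟩ := hl
  have e3' : (1 : ℝ) ≤ C.x0 := by exact_mod_cast e3
  have e4' : (C.x1 : ℝ) ≤ 2 := by exact_mod_cast e4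
  have e5' : (0 : ℝ) ≤ C.y0 := by exact_mod_cast e5
  have e6' : (C.y1 : ℝ) ≤ 1 := by exact_mod_cast e6
  refine ⟨⟨by rw [g1, e1], by rw [g2, e2], by linarith, by linarith, by linarith, by linarith⟩, ?_⟩
  refine ⟨⟨by simp only; linarith, by simp only; linarith, h5, h6⟩, ?_⟩
  rcases e7 with (⟨⟨⟨⟨f1, f2⟩, f3⟩, f4⟩, f5⟩ | ⟨⟨⟨⟨⟨f1, f2⟩, f3⟩, f4⟩, f5⟩, f6⟩) |
    ⟨⟨⟨⟨⟨f1, f2⟩, f3⟩, f4⟩, f5⟩, f6⟩
  · left
    rw [f1, f2, f3] at g3
    rw [f1, f4, f5] at g4
    norm_num at g3 g4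
    refine ⟨by simp only; linarith, by simp only; linarith, by simp only; linarith⟩
  · right; left
    rw [f1, f2, f3] at g3
    rw [f1, f4, f5] at g4
    norm_num at g3 g4
    have f6' : (C.x1 : ℝ) ≤ 5/4 := by
      have : ((C.x1 : ℚ) : ℝ) ≤ ((5/4 : ℚ) : ℝ) := by exact_mod_cast f6
      norm_num at this ⊢; exact this
    refine ⟨by simp only; linarith, by simp only; linarith, by simp only; linarith,
      by simp only; linarith⟩
  · right; right
    rw [f1, f2, f3] at g3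
    rw [f1, f4, f5] at g4
    norm_num at g3 g4
    have f6' : (5/4 : ℝ) ≤ C.x0 := by
      have : ((5/4 : ℚ) : ℝ) ≤ ((C.x0 : ℚ) : ℝ) := by exact_mod_cast f6
      norm_num at this ⊢; exact this
    refine ⟨by simp only; linarith, by simp only; linarith, by simp only; linarith,
      by simp only; linarith⟩

/-- The full rectangle of a pair of sides. -/
def full (i j : ℕ) : Cell := ⟨i, j, false, 1, 0, 1, 0, 0, len i, 0, len j⟩

theorem full_in {s : ℕ → ℕ} {t : ℕ → ℝ} (h : Orb s t) (m : ℕ) :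
    (full (s m) (s (m + 1))).In s t m (t m) (t (m + 1)) := by
  have h1 := h.bd m
  have h2 := h.bd (m + 1)
  refine ⟨rfl, rfl, by simp [full], by simp [full], ?_, ?_, ?_, ?_⟩ <;> simp [full, h1, h2]

theorem runD : run leafD 320 (full 5 0) = true := by decide +kernel

/-- Check that from each listed pair one always reaches an earlier one. -/
def chk : List (ℕ × ℕ) → List (ℕ × ℕ) → Bool
  | _, [] => true
  | good, q :: r => run (fun C => decide ((C.i, C.j) ∈ good)) 200 (full q.1 q.2) &&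
      chk (q :: good) r

theorem runC : chk [(5, 0)] pairs.tail = true := by decide +kernel

/-- From every occurrence of the pair one reaches the section. -/
def Vis (s : ℕ → ℕ) (t : ℕ → ℝ) (q : ℕ × ℕ) : Prop :=
  ∀ m, s m = q.1 → s (m + 1) = q.2 → ∃ m', Dst s t m'

theorem vis0 {s : ℕ → ℕ} {t : ℕ → ℝ} (h : Orb s t) : Vis s t (5, 0) := by
  intro m h1 h2
  have hin := full_in h m
  rw [h1, h2] at hin
  obtain ⟨m', -, C, hl, g1, g2, g3, g4, g5, g6, g7, g8⟩ :=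
    run_sound h leafD (t m) (t (m + 1)) 320 _ m runD hin
  simp only [leafD, Bool.and_eq_true, decide_eq_true_eq] at hl
  obtain ⟨⟨⟨⟨⟨e1, e2⟩, e3⟩, e4⟩, e5⟩, e6⟩ := hl
  have e3' : (1 : ℝ) ≤ C.x0 := by exact_mod_cast e3
  have e4' : (C.x1 : ℝ) ≤ 2 := by exact_mod_cast e4
  have e5' : (0 : ℝ) ≤ C.y0 := by exact_mod_cast e5
  have e6' : (C.y1 : ℝ) ≤ 1 := by exact_mod_cast e6
  exact ⟨m', by rw [g1, e1], by rw [g2, e2], by linarith, by linarith, by linarith, by linarith⟩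

theorem chk_sound {s : ℕ → ℕ} {t : ℕ → ℝ} (h : Orb s t) :
    ∀ (r good : List (ℕ × ℕ)), chk good r = true → (∀ q ∈ good, Vis s t q) →
      ∀ q ∈ r, Vis s t q := by
  intro r
  induction r with
  | nil => intro good _ _ q hq; simp at hq
  | cons q0 r ih =>
    intro good hc hg
    rw [chk, Bool.and_eq_true] at hc
    obtain ⟨hc1, hc2⟩ := hc
    have hq0 : Vis s t q0 := by
      intro m h1 h2
      have hin := full_in h m
      rw [h1, h2] at hin
      obtain ⟨m', -, C, hl, g1, g2, -⟩ :=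
        run_sound h _ (t m) (t (m + 1)) 200 _ m hc1 hin
      simp only [decide_eq_true_eq] at hl
      exact hg _ hl m' g1 g2
    intro q hq
    rcases List.mem_cons.1 hq with rfl | hq
    · exact hq0
    · refine ih (q0 :: good) hc2 ?_ q hq
      intro q' hq'
      rcases List.mem_cons.1 hq' with rfl | hq'
      · exact hq0
      · exact hg _ hq'

theorem exists_Dst {s : ℕ → ℕ} {t : ℕ → ℝ} (h : Orb s t) : ∃ m, Dst s t m := by
  obtain ⟨p, hp, -⟩ := h.step 0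
  have hmem := mem_pairs _ _ p hp
  have hall : ∀ q ∈ pairs, Vis s t q := by
    have h0 := vis0 h
    intro q hq
    have : q = (5, 0) ∨ q ∈ pairs.tail := by
      rw [show pairs = (5, 0) :: pairs.tail from rfl] at hq
      exact List.mem_cons.1 hq
    rcases this with rfl | hq
    · exact h0
    · exact chk_sound h _ [(5, 0)] runC (by intro q' hq'; simp at hq'; rw [hq']; exact h0) q hq
  exact hall _ hmem 0 rfl rfl

/-- The key descent: a finite set of points closed under the self-similar map is empty. -/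
theorem no_finite (n : ℕ) : ∀ A : Set (ℝ × ℝ), A.Finite → A.ncard = n →
    (∀ p ∈ A, ∃ q ∈ A, ERel p q) → A = ∅ := by
  induction n using Nat.strong_induction_on with
  | _ n ih =>
    intro A hA hn hcl
    by_contra hne
    have hne' : A.Nonempty := Set.nonempty_iff_ne_empty.2 hne
    -- the part to the right of 1/2
    set R : Set (ℝ × ℝ) := {p ∈ A | 1/2 < p.1} with hR
    have hRA : R ⊆ A := fun p hp => hp.1
    -- any point with second coordinate below 1/2 is sent to R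
    have lowR : ∀ p ∈ A, p.2 < 1/2 → ∃ q ∈ R, q.1 = (p.1 + 1)/2 ∧ q.2 = 2 * p.2 := by
      intro p hp hlow
      obtain ⟨q, hq, ⟨hb1, hb2, hb3, hb4⟩, hE⟩ := hcl p hp
      rcases hE with ⟨_, e1, e2⟩ | ⟨h1, _⟩ | ⟨h1, _⟩
      · exact ⟨q, ⟨hq, by rw [e1]; linarith⟩, e1, e2⟩
      · exact absurd h1 (by linarith)
      · exact absurd h1 (by linarith)
    have leftUp : ∀ p ∈ A, 1/2 < p.2 → p.1 < 1/2 → ∃ q ∈ A, q.1 = (1 - p.2)/2 ∧ q.2 = 2 * p.1 := by
      intro p hp h1 h2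
      obtain ⟨q, hq, ⟨hb1, hb2, hb3, hb4⟩, hE⟩ := hcl p hp
      rcases hE with ⟨h, _⟩ | ⟨_, _, e1, e2⟩ | ⟨_, h, _⟩
      · exact absurd h (by linarith)
      · exact ⟨q, hq, e1, e2⟩
      · exact absurd h (by linarith)
    have bdd : ∀ p ∈ A, 0 < p.1 ∧ p.1 < 1 ∧ 0 < p.2 ∧ p.2 < 1 := by
      intro p hp
      obtain ⟨q, hq, hb, hE⟩ := hcl p hp
      exact hb
    have dich : ∀ p ∈ A, p.2 < 1/2 ∨ (1/2 < p.2 ∧ p.1 < 1/2) ∨ (1/2 < p.2 ∧ 1/2 < p.1) := by
      intro p hp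
      obtain ⟨q, hq, hb, hE⟩ := hcl p hp
      rcases hE with ⟨h, _⟩ | ⟨h, h', _⟩ | ⟨h, h', _⟩
      · exact Or.inl h
      · exact Or.inr (Or.inl ⟨h, h'⟩)
      · exact Or.inr (Or.inr ⟨h, h'⟩)
    have hRne : R.Nonempty := by
      obtain ⟨p, hp⟩ := hne'
      rcases dich p hp with h | ⟨h, h'⟩ | ⟨_, h'⟩
      · obtain ⟨q, hq, -⟩ := lowR p hp h
        exact ⟨q, hq⟩
      · obtain ⟨q, hq, e1, e2⟩ := leftUp p hp h h'
        have hb := bdd p hp
        rcases dich q hq with g | ⟨g, g'⟩ | ⟨g, g'⟩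
        · obtain ⟨r, hr, -⟩ := lowR q hq g
          exact ⟨r, hr⟩
        · obtain ⟨r, hr, f1, f2⟩ := leftUp q hq g g'
          obtain ⟨w, hw, -⟩ := lowR r hr (by rw [f2, e1]; linarith)
          exact ⟨w, hw⟩
        · exact absurd g' (by rw [e1]; linarith)
      · exact ⟨p, hp, h'⟩
    have hRne' : R ≠ A := by
      intro hRA'
      have hall : ∀ p ∈ A, 1/2 < p.1 := fun p hp => by
        have : p ∈ R := by rw [hRA']; exact hp
        exact this.2
      have hlow : ∀ p ∈ A, p.2 < 1/2 := by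
        intro p hp
        rcases dich p hp with h | ⟨_, h'⟩ | ⟨h, h'⟩
        · exact h
        · exact absurd (hall p hp) (by linarith)
        · obtain ⟨q, hq, hb, hE⟩ := hcl p hp
          rcases hE with ⟨g, _⟩ | ⟨_, g, _⟩ | ⟨_, _, e1, _⟩
          · exact g
          · exact absurd (hall p hp) (by linarith)
          · exact absurd (hall q hq) (by rw [e1]; linarith [hb.2.2.2])
      obtain ⟨p, hp, hmax⟩ := Set.exists_max_image A (fun p => p.2) hA hne'
      obtain ⟨q, hq, -, e2⟩ := lowR p hp (hlow p hp)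
      have h1 : q.2 ≤ p.2 := hmax q hq.1
      have h2 := (bdd p hp).2.2.1
      rw [e2] at h1
      linarith
    have hRfin : R.Finite := hA.subset hRA
    have hlt : R.ncard < n := by
      rw [← hn]
      exact Set.ncard_lt_ncard (hRA.ssubset_of_ne hRne') hA
    -- rescale
    set f : ℝ × ℝ → ℝ × ℝ := fun p => (2 * p.1 - 1, p.2) with hf
    have hinj : Function.Injective f := by
      intro p q hpq
      simp only [hf, Prod.mk.injEq] at hpq
      exact Prod.ext (by linarith [hpq.1]) hpq.2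
    have hcard : (f '' R).ncard = R.ncard := Set.ncard_image_of_injective R hinj
    have hres := ih R.ncard hlt (f '' R) (hRfin.image f) hcard (by
      rintro _ ⟨p, hp, rfl⟩
      have hpA := hRA hp
      have hp1 : 1/2 < p.1 := hp.2
      have hb := bdd p hpA
      have hbf : 0 < (f p).1 ∧ (f p).1 < 1 ∧ 0 < (f p).2 ∧ (f p).2 < 1 := by
        simp only [hf]
        exact ⟨by linarith, by linarith, hb.2.2.1, hb.2.2.2⟩
      rcases dich p hpA with h | ⟨_, h'⟩ | ⟨h, h'⟩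
      · obtain ⟨q, hq, e1, e2⟩ := lowR p hpA h
        refine ⟨f q, ⟨q, hq, rfl⟩, hbf, Or.inl ⟨h, ?_, ?_⟩⟩
        · simp only [hf]; rw [e1]; ring
        · simp only [hf]; rw [e2]
      · exact absurd hp1 (by linarith)
      · obtain ⟨q, hq, -, hE⟩ := hcl p hpA
        have hq' : q.1 = p.2/2 ∧ q.2 = 2 - 2 * p.1 := by
          rcases hE with ⟨g, _⟩ | ⟨_, g, _⟩ | ⟨_, _, e1, e2⟩
          · exact absurd g (by linarith)
          · exact absurd g (by linarith)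
          · exact ⟨e1, e2⟩
        obtain ⟨e1, e2⟩ := hq'
        rcases dich q hq with g | ⟨g, g'⟩ | ⟨g, g'⟩
        · obtain ⟨r, hr, f1, f2⟩ := lowR q hq g
          refine ⟨f r, ⟨r, hr, rfl⟩, hbf, Or.inr (Or.inr ⟨h, ?_, ?_, ?_⟩)⟩
          · simp only [hf]; linarith
          · simp only [hf]; rw [f1, e1]; ring
          · simp only [hf]; rw [f2, e2]; ring
        · obtain ⟨r, hr, f1, f2⟩ := leftUp q hq g g'
          obtain ⟨w, hw, k1, k2⟩ := leftUp r hr (by rw [f2, e1]; linarith) (by rw [f1, e2]; linarith)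
          obtain ⟨z, hz, l1, l2⟩ := lowR w hw (by rw [k2, f1, e2]; linarith)
          refine ⟨f z, ⟨z, hz, rfl⟩, hbf, Or.inr (Or.inl ⟨h, ?_, ?_, ?_⟩)⟩
          · simp only [hf]; linarith
          · simp only [hf]; rw [l1, k1, f2, e1]; ring
          · simp only [hf]; rw [l2, k2, f1, e2]; ring
        · exact absurd g' (by rw [e1]; linarith [hb.2.2.2]))
    rw [Set.image_eq_empty] at hres
    exact hRne.ne_empty hres

/-- No periodic orbit. -/
theorem no_periodic {s : ℕ → ℕ} {t : ℕ → ℝ} (h : Orb s t) (n : ℕ) (hn : 0 < n)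
    (hp : ∀ i, t (i + n) = t i) : False := by
  -- the range of t is finite
  have hmod : ∀ i, t i = t (i % n) := by
    intro i
    induction i using Nat.strong_induction_on with
    | _ i ih =>
      by_cases hi : i < n
      · rw [Nat.mod_eq_of_lt hi]
      · have h1 : t i = t (i - n) := by
          have := hp (i - n)
          rwa [Nat.sub_add_cancel (by omega)] at this
        rw [h1, ih (i - n) (by omega), ← Nat.mod_eq_sub_mod (by omega)]
  have hfin : (Set.range t).Finite := by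
    apply Set.Finite.subset ((Finset.range n).finite_toSet.image t)
    rintro _ ⟨i, rfl⟩
    exact ⟨i % n, by simp [Nat.mod_lt _ hn], (hmod i).symm⟩
  set A : Set (ℝ × ℝ) := {p | ∃ m, Dst s t m ∧ p = (t m - 1, t (m + 1))} with hA
  have hAfin : A.Finite := by
    apply Set.Finite.subset ((hfin.prod hfin).image (fun q : ℝ × ℝ => (q.1 - 1, q.2)))
    rintro _ ⟨m, -, rfl⟩
    exact ⟨(t m, t (m + 1)), ⟨⟨m, rfl⟩, ⟨m + 1, rfl⟩⟩, rfl⟩
  have hAe : A = ∅ := by
    apply no_finite _ A hAfin rfl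
    rintro _ ⟨m, hm, rfl⟩
    obtain ⟨m', hm', hE⟩ := ret h m hm
    exact ⟨_, ⟨m', hm', rfl⟩, hE⟩
  obtain ⟨m, hm⟩ := exists_Dst h
  have : (t m - 1, t (m + 1)) ∈ A := ⟨m, hm, rfl⟩
  rw [hAe] at this
  exact this

end Pool.Agent.SympBill
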