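import Mathlib

/-!
# The heptagon: interior and extreme points
-/

set_option autoImplicit false

namespace Pool.Agent.SympBill

/-- The vertices of the heptagon. -/
noncomputable def hept : Finset (ℝ × ℝ) := {(0, 1), (2, 0), (5, 0), (7, 2), (6, 4), (2, 6), (0, 6)}

lemma mem_hept (p : ℝ × ℝ) : p ∈ hept ↔ p = (0, 1) ∨ p = (2, 0) ∨ p = (5, 0) ∨ p = (7, 2) ∨
    p = (6, 4) ∨ p = (2, 6) ∨ p = (0, 6) := by
  simp [hept]

/-- A half-plane which contains the points of a set contains its convex hull. -/
lemma halfPlane {S : Set (ℝ × ℝ)} {a b c : ℝ} (h : ∀ p ∈ S, a * p.1 + b * p.2 ≤ c) :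
    ∀ p ∈ convexHull ℝ S, a * p.1 + b * p.2 ≤ c := by
  have hconv : Convex ℝ {p : ℝ × ℝ | a * p.1 + b * p.2 ≤ c} := by
    intro x hx y hy s t hs ht hst
    simp only [Set.mem_ofPred_eq] at hx hy ⊢
    simp only [Prod.fst_add, Prod.snd_add, Prod.smul_fst, Prod.smul_snd, smul_eq_mul]
    have h1 := mul_le_mul_of_nonneg_left hx hs
    have h2 := mul_le_mul_of_nonneg_left hy ht
    have h3 : s * c + t * c = c := by rw [← add_mul, hst, one_mul]
    nlinarith
  exact fun p hp => convexHull_min (fun q hq => h q hq) hconv hp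

/-- A point of `K` at which two independent linear functionals attain their maxima is extreme. -/
lemma extreme_of {K : Set (ℝ × ℝ)} {v : ℝ × ℝ} (hv : v ∈ K) {a b a' b' : ℝ}
    (h : ∀ p ∈ K, a * p.1 + b * p.2 ≤ a * v.1 + b * v.2)
    (h' : ∀ p ∈ K, a' * p.1 + b' * p.2 ≤ a' * v.1 + b' * v.2) (hdet : a * b' - a' * b ≠ 0) :
    v ∈ Set.extremePoints ℝ K := by
  rw [mem_extremePoints]
  refine ⟨hv, ?_⟩
  have key : ∀ x ∈ K, ∀ y ∈ K, v ∈ openSegment ℝ x y → x = v := by
    intro x hx y hy hxy
    obtain ⟨s, t, hs, ht, hst, e⟩ := hxy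
    have e1 : s * x.1 + t * y.1 = v.1 := by rw [← e]; simp
    have e2 : s * x.2 + t * y.2 = v.2 := by rw [← e]; simp
    have hx1 := h x hx
    have hy1 := h y hy
    have hx2 := h' x hx
    have hy2 := h' y hy
    have g1 : a * (v.1 - x.1) + b * (v.2 - x.2) = 0 := by
      have p1 : 0 ≤ a * (v.1 - x.1) + b * (v.2 - x.2) := by linarith
      have p2 : 0 ≤ a * (v.1 - y.1) + b * (v.2 - y.2) := by linarith
      have p3 : s * (a * (v.1 - x.1) + b * (v.2 - x.2)) +
          t * (a * (v.1 - y.1) + b * (v.2 - y.2)) = 0 := by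
        have : s * (a * (v.1 - x.1) + b * (v.2 - x.2)) +
          t * (a * (v.1 - y.1) + b * (v.2 - y.2)) =
            a * ((s + t) * v.1 - (s * x.1 + t * y.1)) + b * ((s + t) * v.2 - (s * x.2 + t * y.2)) := by
          ring
        rw [this, hst, e1, e2]
        ring
      have p4 := mul_nonneg ht.le p2
      have p5 := mul_nonneg hs.le p1
      have p6 : s * (a * (v.1 - x.1) + b * (v.2 - x.2)) = 0 := by linarith
      exact (mul_eq_zero.1 p6).resolve_left hs.ne'
    have g2 : a' * (v.1 - x.1) + b' * (v.2 - x.2) = 0 := by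
      have p1 : 0 ≤ a' * (v.1 - x.1) + b' * (v.2 - x.2) := by linarith
      have p2 : 0 ≤ a' * (v.1 - y.1) + b' * (v.2 - y.2) := by linarith
      have p3 : s * (a' * (v.1 - x.1) + b' * (v.2 - x.2)) +
          t * (a' * (v.1 - y.1) + b' * (v.2 - y.2)) = 0 := by
        have : s * (a' * (v.1 - x.1) + b' * (v.2 - x.2)) +
          t * (a' * (v.1 - y.1) + b' * (v.2 - y.2)) =
            a' * ((s + t) * v.1 - (s * x.1 + t * y.1)) + b' * ((s + t) * v.2 - (s * x.2 + t * y.2)) := by
          ring
        rw [this, hst, e1, e2]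
        ring
      have p4 := mul_nonneg ht.le p2
      have p5 := mul_nonneg hs.le p1
      have p6 : s * (a' * (v.1 - x.1) + b' * (v.2 - x.2)) = 0 := by linarith
      exact (mul_eq_zero.1 p6).resolve_left hs.ne'
    have g3 : (a * b' - a' * b) * (v.1 - x.1) = 0 := by
      linear_combination b' * g1 - b * g2
    have g4 : (a * b' - a' * b) * (v.2 - x.2) = 0 := by
      linear_combination a * g2 - a' * g1
    have g5 := (mul_eq_zero.1 g3).resolve_left hdet
    have g6 := (mul_eq_zero.1 g4).resolve_left hdet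
    exact Prod.ext (by linarith) (by linarith)
  intro x hx y hy hxy
  exact ⟨key x hx y hy hxy, key y hy x hx (by rw [openSegment_symm]; exact hxy)⟩

/-- The half-planes of the sides of the heptagon. -/
lemma hull_le (p : ℝ × ℝ) (hp : p ∈ convexHull ℝ (hept : Set (ℝ × ℝ))) :
    (-1) * p.1 + (-2) * p.2 ≤ -2 ∧ 0 * p.1 + (-1) * p.2 ≤ 0 ∧ 1 * p.1 + (-1) * p.2 ≤ 5 ∧
      2 * p.1 + 1 * p.2 ≤ 16 ∧ 1 * p.1 + 2 * p.2 ≤ 14 ∧ 0 * p.1 + 1 * p.2 ≤ 6 ∧
      (-1) * p.1 + 0 * p.2 ≤ 0 := by
  refine ⟨halfPlane ?_ p hp, halfPlane ?_ p hp, halfPlane ?_ p hp, halfPlane ?_ p hp,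
    halfPlane ?_ p hp, halfPlane ?_ p hp, halfPlane ?_ p hp⟩ <;>
  · intro q hq
    rw [Finset.mem_coe, mem_hept] at hq
    rcases hq with rfl | rfl | rfl | rfl | rfl | rfl | rfl <;> norm_num

/-- The vertices of the heptagon are extreme points of the hull. -/
theorem vertex_extreme : ∀ v ∈ hept, v ∈ Set.extremePoints ℝ (convexHull ℝ (hept : Set (ℝ × ℝ))) := by
  intro v hv
  have hmem : v ∈ convexHull ℝ (hept : Set (ℝ × ℝ)) := subset_convexHull ℝ _ (Finset.mem_coe.2 hv)
  rw [mem_hept] at hv
  rcases hv with rfl | rfl | rfl | rfl | rfl | rfl | rfl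
  · exact extreme_of (a := -1) (b := 0) (a' := -1) (b' := -2) hmem
      (fun p hp => by have := hull_le p hp; norm_num; linarith)
      (fun p hp => by have := hull_le p hp; norm_num; linarith) (by norm_num)
  · exact extreme_of (a := -1) (b := -2) (a' := 0) (b' := -1) hmem
      (fun p hp => by have := hull_le p hp; norm_num; linarith)
      (fun p hp => by have := hull_le p hp; norm_num; linarith) (by norm_num)
  · exact extreme_of (a := 0) (b := -1) (a' := 1) (b' := -1) hmem
      (fun p hp => by have := hull_le p hp; norm_num; linarith)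
      (fun p hp => by have := hull_le p hp; norm_num; linarith) (by norm_num)
  · exact extreme_of (a := 1) (b := -1) (a' := 2) (b' := 1) hmem
      (fun p hp => by have := hull_le p hp; norm_num; linarith)
      (fun p hp => by have := hull_le p hp; norm_num; linarith) (by norm_num)
  · exact extreme_of (a := 2) (b := 1) (a' := 1) (b' := 2) hmem
      (fun p hp => by have := hull_le p hp; norm_num; linarith)
      (fun p hp => by have := hull_le p hp; norm_num; linarith) (by norm_num)
  · exact extreme_of (a := 1) (b := 2) (a' := 0) (b' := 1) hmem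
      (fun p hp => by have := hull_le p hp; norm_num; linarith)
      (fun p hp => by have := hull_le p hp; norm_num; linarith) (by norm_num)
  · exact extreme_of (a := 0) (b := 1) (a' := -1) (b' := 0) hmem
      (fun p hp => by have := hull_le p hp; norm_num; linarith)
      (fun p hp => by have := hull_le p hp; norm_num; linarith) (by norm_num)

/-- The hull of the heptagon has nonempty interior. -/
theorem hull_interior : (interior (convexHull ℝ (hept : Set (ℝ × ℝ)))).Nonempty := by
  have hU : {p : ℝ × ℝ | 2 < p.1 ∧ 0 < p.2 ∧ 2 * p.1 + p.2 < 10} ⊆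
      convexHull ℝ (hept : Set (ℝ × ℝ)) := by
    rintro ⟨a, b⟩ ⟨h1, h2, h3⟩
    simp only at h1 h2 h3
    have hc := convex_convexHull ℝ (hept : Set (ℝ × ℝ))
    have hm : ∀ p ∈ hept, p ∈ convexHull ℝ (hept : Set (ℝ × ℝ)) :=
      fun p hp => subset_convexHull ℝ _ (Finset.mem_coe.2 hp)
    have := hc.sum_mem (t := (Finset.univ : Finset (Fin 3)))
      (w := ![(a - 2) / 3, b / 6, (10 - 2 * a - b) / 6])
      (z := ![((5 : ℝ), (0 : ℝ)), (2, 6), (2, 0)]) (by
        intro i _
        fin_cases i
        · simp only [Fin.zero_eta, Matrix.cons_val_zero]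
          linarith
        · simp only [Fin.mk_one, Matrix.cons_val_one, Matrix.cons_val_zero]
          linarith
        · change 0 ≤ (10 - 2 * a - b) / 6
          linarith) (by
        rw [Fin.sum_univ_three]
        change (a - 2) / 3 + b / 6 + (10 - 2 * a - b) / 6 = 1
        ring) (by
        intro i _
        fin_cases i
        · exact hm (5, 0) (by rw [mem_hept]; simp)
        · exact hm (2, 6) (by rw [mem_hept]; simp)
        · exact hm (2, 0) (by rw [mem_hept]; simp))
    rw [Fin.sum_univ_three] at this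
    convert this using 1
    change (a, b) = ((a - 2) / 3) • ((5 : ℝ), (0 : ℝ)) + (b / 6) • ((2 : ℝ), (6 : ℝ)) +
      ((10 - 2 * a - b) / 6) • ((2 : ℝ), (0 : ℝ))
    ext
    · simp only [Prod.smul_mk, smul_eq_mul, Prod.mk_add_mk]
      ring
    · simp only [Prod.smul_mk, smul_eq_mul, Prod.mk_add_mk]
      ring
  have hopen : IsOpen {p : ℝ × ℝ | 2 < p.1 ∧ 0 < p.2 ∧ 2 * p.1 + p.2 < 10} := by
    refine (isOpen_lt continuous_const continuous_fst).inter
      ((isOpen_lt continuous_const continuous_snd).inter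
        (isOpen_lt ((continuous_const.mul continuous_fst).add continuous_snd) continuous_const))
  exact ⟨(3, 1), interior_maximal hU hopen ⟨by norm_num, by norm_num, by norm_num⟩⟩

end Pool.Agent.SympBill
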