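import Pool.Agent.SympBill.Dyn

set_option autoImplicit false

/-!
# The symplectic billiard of a heptagon: one step
-/

namespace Pool.Agent.SympBill

/-- The point at lattice distance `t` on side `s`. -/
def pt (s : ℕ) (t : ℝ) : ℝ × ℝ :=
  match s with
  | 0 => (2 * t, 1 - t)
  | 1 => (2 + t, 0)
  | 2 => (5 + t, t)
  | 3 => (7 - t, 2 + 2 * t)
  | 4 => (6 - 2 * t, 4 + t)
  | 5 => (2 - t, 6)
  | 6 => (0, 6 - t)
  | _ => (0, 0)

/-- The height over side `j`. -/
def hh (j : ℕ) (p : ℝ × ℝ) : ℝ :=
  match j with
  | 0 => p.1 + 2 * p.2 - 2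
  | 1 => p.2
  | 2 => p.2 - p.1 + 5
  | 3 => 16 - 2 * p.1 - p.2
  | 4 => 14 - p.1 - 2 * p.2
  | 5 => 6 - p.2
  | 6 => p.1
  | _ => 0

/-- The maximal height over side `j`. -/
def mx (j : ℕ) : ℝ :=
  match j with
  | 0 => 12
  | 1 => 6
  | 2 => 11
  | 3 => 15
  | 4 => 12
  | 5 => 6
  | 6 => 7
  | _ => 0

/-- A step from the point at distance `t` of side `s`, over side `j`, to the point at distance `t'`
of side `k`. -/
def Pst (j s k : ℕ) (t t' : ℝ) : Prop :=
  ∃ p ∈ pcs j s, (p.lo : ℝ) < t ∧ t < (p.hi : ℝ) ∧ k = p.k ∧ t' = (p.al : ℝ) * t + (p.be : ℝ)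

theorem step0 {s k : ℕ} {t t' : ℝ} (hs : s < 7) (hk : k < 7)
    (h1 : 0 < t) (h2 : t < (len s : ℝ)) (h3 : 0 < t') (h4 : t' < (len k : ℝ))
    (e : hh 0 (pt s t) = hh 0 (pt k t')) (p0 : 0 < hh 0 (pt s t)) (p1 : hh 0 (pt s t) < mx 0)
    (hne : s ≠ k ∨ t ≠ t') : Pst 0 s k t t' ∨ Pst 0 k s t' t := by
  interval_cases s <;> interval_cases k <;>
    simp only [hh, pt, mx, len, Rat.cast_ofNat, Rat.cast_one] at h2 h4 e p0 p1 <;>
    first
    | (exfalso; linarith)
    | (exfalso; exact hne.elim (fun h => h rfl) (fun h => h (by linarith)))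
    | (left
       simp only [Pst, pcs, List.mem_cons, List.not_mem_nil, or_false, exists_eq_or_imp,
         exists_eq_left]
       norm_num
       first
       | done
       | (constructor <;> linarith)
       | (refine ⟨?_, ?_, ?_⟩ <;> linarith))
    | (right
       simp only [Pst, pcs, List.mem_cons, List.not_mem_nil, or_false, exists_eq_or_imp,
         exists_eq_left]
       norm_num
       first
       | done
       | (constructor <;> linarith)
       | (refine ⟨?_, ?_, ?_⟩ <;> linarith))

theorem step1 {s k : ℕ} {t t' : ℝ} (hs : s < 7) (hk : k < 7)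
    (h1 : 0 < t) (h2 : t < (len s : ℝ)) (h3 : 0 < t') (h4 : t' < (len k : ℝ))
    (e : hh 1 (pt s t) = hh 1 (pt k t')) (p0 : 0 < hh 1 (pt s t)) (p1 : hh 1 (pt s t) < mx 1)
    (hne : s ≠ k ∨ t ≠ t') : Pst 1 s k t t' ∨ Pst 1 k s t' t := by
  interval_cases s <;> interval_cases k <;>
    simp only [hh, pt, mx, len, Rat.cast_ofNat, Rat.cast_one] at h2 h4 e p0 p1 <;>
    first
    | (exfalso; linarith)
    | (exfalso; exact hne.elim (fun h => h rfl) (fun h => h (by linarith)))
    | (left
       simp only [Pst, pcs, List.mem_cons, List.not_mem_nil, or_false, exists_eq_or_imp,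
         exists_eq_left]
       norm_num
       first
       | done
       | (constructor <;> linarith)
       | (refine ⟨?_, ?_, ?_⟩ <;> linarith))
    | (right
       simp only [Pst, pcs, List.mem_cons, List.not_mem_nil, or_false, exists_eq_or_imp,
         exists_eq_left]
       norm_num
       first
       | done
       | (constructor <;> linarith)
       | (refine ⟨?_, ?_, ?_⟩ <;> linarith))

theorem step2 {s k : ℕ} {t t' : ℝ} (hs : s < 7) (hk : k < 7)
    (h1 : 0 < t) (h2 : t < (len s : ℝ)) (h3 : 0 < t') (h4 : t' < (len k : ℝ))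
    (e : hh 2 (pt s t) = hh 2 (pt k t')) (p0 : 0 < hh 2 (pt s t)) (p1 : hh 2 (pt s t) < mx 2)
    (hne : s ≠ k ∨ t ≠ t') : Pst 2 s k t t' ∨ Pst 2 k s t' t := by
  interval_cases s <;> interval_cases k <;>
    simp only [hh, pt, mx, len, Rat.cast_ofNat, Rat.cast_one] at h2 h4 e p0 p1 <;>
    first
    | (exfalso; linarith)
    | (exfalso; exact hne.elim (fun h => h rfl) (fun h => h (by linarith)))
    | (left
       simp only [Pst, pcs, List.mem_cons, List.not_mem_nil, or_false, exists_eq_or_imp,
         exists_eq_left]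
       norm_num
       first
       | done
       | (constructor <;> linarith)
       | (refine ⟨?_, ?_, ?_⟩ <;> linarith))
    | (right
       simp only [Pst, pcs, List.mem_cons, List.not_mem_nil, or_false, exists_eq_or_imp,
         exists_eq_left]
       norm_num
       first
       | done
       | (constructor <;> linarith)
       | (refine ⟨?_, ?_, ?_⟩ <;> linarith))

theorem step3 {s k : ℕ} {t t' : ℝ} (hs : s < 7) (hk : k < 7)
    (h1 : 0 < t) (h2 : t < (len s : ℝ)) (h3 : 0 < t') (h4 : t' < (len k : ℝ))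
    (e : hh 3 (pt s t) = hh 3 (pt k t')) (p0 : 0 < hh 3 (pt s t)) (p1 : hh 3 (pt s t) < mx 3)
    (hne : s ≠ k ∨ t ≠ t') : Pst 3 s k t t' ∨ Pst 3 k s t' t := by
  interval_cases s <;> interval_cases k <;>
    simp only [hh, pt, mx, len, Rat.cast_ofNat, Rat.cast_one] at h2 h4 e p0 p1 <;>
    first
    | (exfalso; linarith)
    | (exfalso; exact hne.elim (fun h => h rfl) (fun h => h (by linarith)))
    | (left
       simp only [Pst, pcs, List.mem_cons, List.not_mem_nil, or_false, exists_eq_or_imp,
         exists_eq_left]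
       norm_num
       first
       | done
       | (constructor <;> linarith)
       | (refine ⟨?_, ?_, ?_⟩ <;> linarith))
    | (right
       simp only [Pst, pcs, List.mem_cons, List.not_mem_nil, or_false, exists_eq_or_imp,
         exists_eq_left]
       norm_num
       first
       | done
       | (constructor <;> linarith)
       | (refine ⟨?_, ?_, ?_⟩ <;> linarith))

theorem step4 {s k : ℕ} {t t' : ℝ} (hs : s < 7) (hk : k < 7)
    (h1 : 0 < t) (h2 : t < (len s : ℝ)) (h3 : 0 < t') (h4 : t' < (len k : ℝ))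
    (e : hh 4 (pt s t) = hh 4 (pt k t')) (p0 : 0 < hh 4 (pt s t)) (p1 : hh 4 (pt s t) < mx 4)
    (hne : s ≠ k ∨ t ≠ t') : Pst 4 s k t t' ∨ Pst 4 k s t' t := by
  interval_cases s <;> interval_cases k <;>
    simp only [hh, pt, mx, len, Rat.cast_ofNat, Rat.cast_one] at h2 h4 e p0 p1 <;>
    first
    | (exfalso; linarith)
    | (exfalso; exact hne.elim (fun h => h rfl) (fun h => h (by linarith)))
    | (left
       simp only [Pst, pcs, List.mem_cons, List.not_mem_nil, or_false, exists_eq_or_imp,
         exists_eq_left]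
       norm_num
       first
       | done
       | (constructor <;> linarith)
       | (refine ⟨?_, ?_, ?_⟩ <;> linarith))
    | (right
       simp only [Pst, pcs, List.mem_cons, List.not_mem_nil, or_false, exists_eq_or_imp,
         exists_eq_left]
       norm_num
       first
       | done
       | (constructor <;> linarith)
       | (refine ⟨?_, ?_, ?_⟩ <;> linarith))

theorem step5 {s k : ℕ} {t t' : ℝ} (hs : s < 7) (hk : k < 7)
    (h1 : 0 < t) (h2 : t < (len s : ℝ)) (h3 : 0 < t') (h4 : t' < (len k : ℝ))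
    (e : hh 5 (pt s t) = hh 5 (pt k t')) (p0 : 0 < hh 5 (pt s t)) (p1 : hh 5 (pt s t) < mx 5)
    (hne : s ≠ k ∨ t ≠ t') : Pst 5 s k t t' ∨ Pst 5 k s t' t := by
  interval_cases s <;> interval_cases k <;>
    simp only [hh, pt, mx, len, Rat.cast_ofNat, Rat.cast_one] at h2 h4 e p0 p1 <;>
    first
    | (exfalso; linarith)
    | (exfalso; exact hne.elim (fun h => h rfl) (fun h => h (by linarith)))
    | (left
       simp only [Pst, pcs, List.mem_cons, List.not_mem_nil, or_false, exists_eq_or_imp,
         exists_eq_left]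
       norm_num
       first
       | done
       | (constructor <;> linarith)
       | (refine ⟨?_, ?_, ?_⟩ <;> linarith))
    | (right
       simp only [Pst, pcs, List.mem_cons, List.not_mem_nil, or_false, exists_eq_or_imp,
         exists_eq_left]
       norm_num
       first
       | done
       | (constructor <;> linarith)
       | (refine ⟨?_, ?_, ?_⟩ <;> linarith))

theorem step6 {s k : ℕ} {t t' : ℝ} (hs : s < 7) (hk : k < 7)
    (h1 : 0 < t) (h2 : t < (len s : ℝ)) (h3 : 0 < t') (h4 : t' < (len k : ℝ))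
    (e : hh 6 (pt s t) = hh 6 (pt k t')) (p0 : 0 < hh 6 (pt s t)) (p1 : hh 6 (pt s t) < mx 6)
    (hne : s ≠ k ∨ t ≠ t') : Pst 6 s k t t' ∨ Pst 6 k s t' t := by
  interval_cases s <;> interval_cases k <;>
    simp only [hh, pt, mx, len, Rat.cast_ofNat, Rat.cast_one] at h2 h4 e p0 p1 <;>
    first
    | (exfalso; linarith)
    | (exfalso; exact hne.elim (fun h => h rfl) (fun h => h (by linarith)))
    | (left
       simp only [Pst, pcs, List.mem_cons, List.not_mem_nil, or_false, exists_eq_or_imp,
         exists_eq_left]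
       norm_num
       first
       | done
       | (constructor <;> linarith)
       | (refine ⟨?_, ?_, ?_⟩ <;> linarith))
    | (right
       simp only [Pst, pcs, List.mem_cons, List.not_mem_nil, or_false, exists_eq_or_imp,
         exists_eq_left]
       norm_num
       first
       | done
       | (constructor <;> linarith)
       | (refine ⟨?_, ?_, ?_⟩ <;> linarith))

theorem step_all {j s k : ℕ} {t t' : ℝ} (hj : j < 7) (hs : s < 7) (hk : k < 7)
    (h1 : 0 < t) (h2 : t < (len s : ℝ)) (h3 : 0 < t') (h4 : t' < (len k : ℝ))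
    (e : hh j (pt s t) = hh j (pt k t')) (p0 : 0 < hh j (pt s t)) (p1 : hh j (pt s t) < mx j)
    (hne : s ≠ k ∨ t ≠ t') : Pst j s k t t' ∨ Pst j k s t' t := by
  interval_cases j
  · exact step0 hs hk h1 h2 h3 h4 e p0 p1 hne
  · exact step1 hs hk h1 h2 h3 h4 e p0 p1 hne
  · exact step2 hs hk h1 h2 h3 h4 e p0 p1 hne
  · exact step3 hs hk h1 h2 h3 h4 e p0 p1 hne
  · exact step4 hs hk h1 h2 h3 h4 e p0 p1 hne
  · exact step5 hs hk h1 h2 h3 h4 e p0 p1 hne
  · exact step6 hs hk h1 h2 h3 h4 e p0 p1 hne

/-- The second side of a step lies after the middle side. -/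
theorem mem_pairs' (j i : ℕ) (p : Pc) (h : p ∈ pcs j i) : (j, p.k) ∈ pairs := by
  unfold pcs at h
  split at h <;>
    (simp only [List.mem_cons, List.not_mem_nil, or_false] at h) <;>
    first
    | exact h.elim
    | (rcases h with rfl | rfl | rfl <;> simp [pairs])
    | (rcases h with rfl | rfl <;> simp [pairs])
    | (subst h; simp [pairs])

theorem pairs_asymm : ∀ q ∈ pairs, (q.2, q.1) ∉ pairs := by decide

theorem Pst.left {j s k : ℕ} {t t' : ℝ} (h : Pst j s k t t') : (s, j) ∈ pairs := by
  obtain ⟨p, hp, -⟩ := h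
  exact mem_pairs j s p hp

theorem Pst.right {j s k : ℕ} {t t' : ℝ} (h : Pst j s k t t') : (j, k) ∈ pairs := by
  obtain ⟨p, hp, -, -, rfl, -⟩ := h
  exact mem_pairs' j s p hp

/-- A periodic sequence of sides and positions, each step being of one of the two kinds, does not
exist. -/
theorem no_periodic' {s : ℕ → ℕ} {t : ℕ → ℝ} (hb : ∀ i, 0 < t i ∧ t i < (len (s i) : ℝ))
    (h : ∀ i, Pst (s (i + 1)) (s i) (s (i + 2)) (t i) (t (i + 2)) ∨
      Pst (s (i + 1)) (s (i + 2)) (s i) (t (i + 2)) (t i))
    (n : ℕ) (hn : 0 < n) (hs : ∀ i, s (i + n) = s i) (ht : ∀ i, t (i + n) = t i) : False := by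
  by_cases h0 : (s 0, s 1) ∈ pairs
  · have hall : ∀ i, (s i, s (i + 1)) ∈ pairs := by
      intro i
      induction i with
      | zero => exact h0
      | succ i ih =>
        rcases h i with h' | h'
        · exact h'.right
        · exact absurd ih (pairs_asymm _ h'.right)
    have horb : Orb s t := by
      refine ⟨hb, fun i => ?_⟩
      rcases h i with h' | h'
      · exact h'
      · exact absurd (hall i) (pairs_asymm _ h'.right)
    exact no_periodic horb n hn ht
  · have hall : ∀ i, (s (i + 1), s i) ∈ pairs := by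
      intro i
      induction i with
      | zero =>
        rcases h 0 with h' | h'
        · exact absurd h'.left h0
        · exact h'.right
      | succ i ih =>
        rcases h i with h' | h'
        · exact absurd ih (pairs_asymm _ h'.left)
        · exact h'.left
    have hstep : ∀ i, Pst (s (i + 1)) (s (i + 2)) (s i) (t (i + 2)) (t i) := by
      intro i
      rcases h i with h' | h'
      · exact absurd h'.left (pairs_asymm _ (hall i))
      · exact h'
    -- reverse time
    have hsm : ∀ m i, s (i + m * n) = s i := by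
      intro m
      induction m with
      | zero => intro i; simp
      | succ m ih => intro i; rw [Nat.succ_mul, ← Nat.add_assoc, hs, ih]
    have htm : ∀ m i, t (i + m * n) = t i := by
      intro m
      induction m with
      | zero => intro i; simp
      | succ m ih => intro i; rw [Nat.succ_mul, ← Nat.add_assoc, ht, ih]
    obtain ⟨n', rfl⟩ : ∃ n', n = n' + 1 := ⟨n - 1, by omega⟩
    -- `i * n'` is `-i` modulo `n' + 1`
    have horb : Orb (fun i => s (i * n')) (fun i => t (i * n')) := by
      refine ⟨fun i => hb _, fun i => ?_⟩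
      have hS := hstep ((i + 2) * n')
      have e0 : (i + 2) * n' + 2 = i * n' + 2 * (n' + 1) := by ring
      have e1 : (i + 2) * n' + 1 = (i + 1) * n' + 1 * (n' + 1) := by ring
      rw [e0, e1, hsm, hsm, htm] at hS
      exact hS
    refine no_periodic horb (n' + 1) hn fun i => ?_
    show t ((i + (n' + 1)) * n') = t (i * n')
    have e2 : (i + (n' + 1)) * n' = i * n' + n' * (n' + 1) := by ring
    rw [e2, htm]

end Pool.Agent.SympBill
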